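import Pool.Agent.Helper49.LP.Ten

namespace Pool.Agent.Results.MP_9fbc95_co.FullQ1

open Polynomial Pool.Agent.Helper77.LomDefs

/-- For all `m` and `n`, the numerator `N^{(m)}_{n,ν}` is a polynomial in `ν` with nonnegative
integer coefficients. -/
theorem result (m n : ℕ) :
    ∃ p : ℕ[X], numN m n = algebraMap ℚ[X] (RatFunc ℚ) (p.map (Nat.castRingHom ℚ)) :=
  Pool.Agent.Helper49.LP.full m n

end Pool.Agent.Results.MP_9fbc95_co.FullQ1
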